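import Mathlib
import Pool.Agent.X139.UB.Defs
import Pool.Agent.X139.UB.Conv

/-!
# MP_28b826_pr, Q2: the mean occupation time at criticality

For every subcritical update family `U` (no assumption on the behaviour at `p_c` is needed):
`E_{p_c} T < ∞` if and only if `p_c = 1`, and this happens exactly when no rule of `U` is contained
in an open half plane.  If `p_c ≠ 1` then even `P_{p_c}(T > t) ≥ c / (t + 1)` for all `t`, so
`E_{p_c} T = ∞`; if `p_c = 1` then at `p_c` the whole plane is initially infected and `T = 0`.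
-/

open MeasureTheory Set
open scoped ENNReal unitInterval

namespace Pool.Agent.Results.MP_28b826_pr.InfiniteMeanTimeAtCriticality

open Pool.Agent.X139.UB

theorem result : ∀ U : Finset (Finset (ℤ × ℤ)), Subcritical U →
    (meanT U (pc U) < ⊤ ↔ pc U = 1) ∧
    (pc U = 1 ↔ ∀ X ∈ U, ¬ InOpenHalfPlane X) ∧
    (pc U ≠ 1 → ∃ c : ℝ, 0 < c ∧ ∀ t : ℕ,
      ENNReal.ofReal (c / (t + 1)) ≤ Pr (pc U) {ω | (t : ℕ∞) < occTime U ω}) ∧
    (pc U = 1 → Pr (pc U) {ω | Percolates U ω} = 1 ∧ ∀ᵐ ω ∂(Pr (pc U)), occTime U ω = 0) :=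
  fun _ h => main h.nonempty

end Pool.Agent.Results.MP_28b826_pr.InfiniteMeanTimeAtCriticality
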